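import Pool.Agent.H96.AL.Targets4

set_option autoImplicit false

open Topology Set Filter Real

namespace Pool.Agent.H19.AL

open Pool.Agent.H96.AL

theorem sinh_le_mul_cosh {x : ℝ} (hx : 0 ≤ x) : sinh x ≤ x * cosh x := by
  have h := Convex.image_sub_le_mul_sub_of_deriv_le (D := Icc 0 x) (f := sinh) (convex_Icc 0 x)
    Real.continuous_sinh.continuousOn Real.differentiable_sinh.differentiableOn (C := cosh x)
    (by
      intro y hy
      rw [interior_Icc] at hy
      rw [Real.deriv_sinh]
      exact Real.cosh_le_cosh.mpr (by rw [abs_of_pos hy.1, abs_of_nonneg hx]; exact hy.2.le))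
    0 (left_mem_Icc.mpr hx) x (right_mem_Icc.mpr hx) hx
  rw [Real.sinh_zero] at h
  linarith

theorem coth_le {x : ℝ} (hx : 0 < x) : x * cosh x ≤ (1 + x) * sinh x := by
  have h1 : x ≤ sinh x := Real.self_le_sinh_iff.mpr hx.le
  have h2 : cosh x - sinh x = exp (-x) := Real.cosh_sub_sinh x
  have h3 : exp (-x) ≤ 1 := Real.exp_le_one_iff.mpr (by linarith)
  have h4 : x * exp (-x) ≤ x * 1 := mul_le_mul_of_nonneg_left h3 hx.le
  nlinarith

theorem cc_bound {D a b c : ℝ} (ha : 0 < a) (hb : 0 < b) (haD : a ≤ D)
    (hab : 2 * (1 + D) * b < a) (hc : cosh a ≤ cosh b * cosh c) : cc a b c ≤ 3 / 4 := by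
  unfold cc
  have sa : 0 < sinh a := Real.sinh_pos_iff.mpr ha
  have sb : 0 < sinh b := Real.sinh_pos_iff.mpr hb
  have ca : 0 < cosh a := Real.cosh_pos a
  have cb : 0 < cosh b := Real.cosh_pos b
  rw [div_le_iff₀ (mul_pos sa sb)]
  have h1 := sinh_le_mul_cosh hb.le
  have h2 := coth_le ha
  have h3 : cosh b ^ 2 = sinh b ^ 2 + 1 := Real.cosh_sq b
  -- cosh b * (cosh a cosh b - cosh c) ≤ cosh a * sinh b ^ 2
  have h4 : cosh b * (cosh a * cosh b - cosh c) ≤ cosh a * sinh b ^ 2 := by nlinarith
  -- cosh a * sinh b ≤ (1/2) sinh a cosh b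
  have h5 : cosh a * sinh b ≤ 1 / 2 * (sinh a * cosh b) := by
    have e1 : a * (cosh a * sinh b) ≤ ((1 + a) * sinh a) * (b * cosh b) := by
      have t1 : (a * cosh a) * sinh b ≤ ((1 + a) * sinh a) * (b * cosh b) :=
        mul_le_mul h2 h1 sb.le (by positivity)
      linarith
    have e2 : (1 + a) * b ≤ a / 2 := by
      have : (1 + a) * b ≤ (1 + D) * b := mul_le_mul_of_nonneg_right (by linarith) hb.le
      linarith
    have e3 : ((1 + a) * sinh a) * (b * cosh b) ≤ a / 2 * (sinh a * cosh b) := by
      have : ((1 + a) * sinh a) * (b * cosh b) = ((1 + a) * b) * (sinh a * cosh b) := by ring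
      rw [this]
      exact mul_le_mul_of_nonneg_right e2 (mul_pos sa cb).le
    have e4 : a * (cosh a * sinh b) ≤ a * (1 / 2 * (sinh a * cosh b)) := by linarith
    exact le_of_mul_le_mul_left e4 ha
  have h6 : cosh b * (cosh a * cosh b - cosh c) ≤ cosh b * (3 / 4 * (sinh a * sinh b)) := by
    have t1 : (cosh a * sinh b) * sinh b ≤ (1 / 2 * (sinh a * cosh b)) * sinh b :=
      mul_le_mul_of_nonneg_right h5 sb.le
    have t2 : 0 ≤ sinh a * sinh b * cosh b := by positivity
    nlinarith
  exact le_of_mul_le_mul_left h6 cb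

theorem ac (hDR : T_DR) (hDN : T_DN) (hEX : T_EX) (hFO : T_FO) (hUN : T_UN) : T_AC := by
  intro X _ D hX hdim
  obtain ⟨N, hN⟩ := hDR X D hX hdim
  refine ⟨N, ?_⟩
  intro y
  by_contra hcon
  push Not at hcon
  have := hX.compact
  obtain ⟨_, _, _, hull'⟩ := hUN X D hX
  have hD1 := hX.one_le
  have hE : ∀ i, Extremal (hull (y i)) := fun i => (hull' (y i)).1
  have hcl : ∀ i, IsClosed (hull (y i)) := fun i => (hE i).1
  have hne : ∀ i, (hull (y i)).Nonempty := fun i => ⟨y i, (hull' (y i)).2.1⟩
  have hcont : ∀ i, Continuous (fun z : X => Metric.infDist z (hull (y i))) := fun i =>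
    Metric.continuous_infDist_pt _
  -- the induction
  have key : ∀ k ≤ N, ∃ z ∈ hull (y k), (∀ i < k, 0 < Metric.infDist z (hull (y i))) ∧
      ∀ j < k, ∀ i < j, 2 * (1 + D) * Metric.infDist z (hull (y j)) <
        Metric.infDist z (hull (y i)) := by
    intro k
    induction k with
    | zero =>
      intro _
      exact ⟨y 0, (hull' (y 0)).2.1, fun i hi => absurd hi (Nat.not_lt_zero i),
        fun j hj => absurd hj (Nat.not_lt_zero j)⟩
    | succ k ih =>
      intro hk
      obtain ⟨z, hz, h1, h2⟩ := ih (by omega)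
      have hss := hcon k (by omega)
      have hyk : y (k + 1) ∉ hull (y k) := by
        intro hmem
        exact hss.2 ((hull' (y k)).2.2.2 _ hmem)
      have hzc : z ∈ closure (hull (y (k + 1)) \ hull (y k)) :=
        hDN X D hX (y (k + 1)) (hull (y k)) (hE k) hyk (hss.1 hz)
      have hz0 : Metric.infDist z (hull (y k)) = 0 := Metric.infDist_zero_of_mem hz
      let O : Set X := {w | (∀ i ∈ Finset.range k, 0 < Metric.infDist w (hull (y i))) ∧
        (∀ j ∈ Finset.range k, ∀ i ∈ Finset.range j,
          2 * (1 + D) * Metric.infDist w (hull (y j)) < Metric.infDist w (hull (y i))) ∧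
        (∀ i ∈ Finset.range k,
          2 * (1 + D) * Metric.infDist w (hull (y k)) < Metric.infDist w (hull (y i)))}
      have hO : IsOpen O := by
        have o1 : IsOpen {w : X | ∀ i ∈ Finset.range k, 0 < Metric.infDist w (hull (y i))} := by
          have : {w : X | ∀ i ∈ Finset.range k, 0 < Metric.infDist w (hull (y i))} =
              ⋂ i ∈ Finset.range k, {w : X | 0 < Metric.infDist w (hull (y i))} := by
            ext w; simp
          rw [this]
          exact isOpen_biInter_finset fun i _ => isOpen_lt continuous_const (hcont i)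
        have o2 : IsOpen {w : X | ∀ j ∈ Finset.range k, ∀ i ∈ Finset.range j,
            2 * (1 + D) * Metric.infDist w (hull (y j)) < Metric.infDist w (hull (y i))} := by
          have : {w : X | ∀ j ∈ Finset.range k, ∀ i ∈ Finset.range j,
              2 * (1 + D) * Metric.infDist w (hull (y j)) < Metric.infDist w (hull (y i))} =
              ⋂ j ∈ Finset.range k, ⋂ i ∈ Finset.range j, {w : X |
                2 * (1 + D) * Metric.infDist w (hull (y j)) < Metric.infDist w (hull (y i))} := by
            ext w; simp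
          rw [this]
          exact isOpen_biInter_finset fun j _ => isOpen_biInter_finset fun i _ =>
            isOpen_lt (continuous_const.mul (hcont j)) (hcont i)
        have o3 : IsOpen {w : X | ∀ i ∈ Finset.range k,
            2 * (1 + D) * Metric.infDist w (hull (y k)) < Metric.infDist w (hull (y i))} := by
          have : {w : X | ∀ i ∈ Finset.range k,
              2 * (1 + D) * Metric.infDist w (hull (y k)) < Metric.infDist w (hull (y i))} =
              ⋂ i ∈ Finset.range k, {w : X |
                2 * (1 + D) * Metric.infDist w (hull (y k)) < Metric.infDist w (hull (y i))} := by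
            ext w; simp
          rw [this]
          exact isOpen_biInter_finset fun i _ =>
            isOpen_lt (continuous_const.mul (hcont k)) (hcont i)
        exact o1.inter (o2.inter o3)
      have hzO : z ∈ O := by
        refine ⟨fun i hi => h1 i (Finset.mem_range.mp hi), fun j hj i hi =>
          h2 j (Finset.mem_range.mp hj) i (Finset.mem_range.mp hi), fun i hi => ?_⟩
        rw [hz0, mul_zero]
        exact h1 i (Finset.mem_range.mp hi)
      obtain ⟨z', hz'O, hz'1, hz'2⟩ := mem_closure_iff.mp hzc O hO hzO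
      obtain ⟨a1, a2, a3⟩ := hz'O
      refine ⟨z', hz'1, ?_, ?_⟩
      · intro i hi
        rcases Nat.lt_succ_iff_lt_or_eq.mp hi with hi | rfl
        · exact a1 i (Finset.mem_range.mpr hi)
        · exact ((hcl i).notMem_iff_infDist_pos (hne i)).mp hz'2
      · intro j hj i hi
        rcases Nat.lt_succ_iff_lt_or_eq.mp hj with hj | rfl
        · exact a2 j (Finset.mem_range.mpr hj) i (Finset.mem_range.mpr hi)
        · exact a3 i (Finset.mem_range.mpr hi)
  obtain ⟨z, _, h1, h2⟩ := key N le_rfl
  have hfoot : ∀ i : ℕ, ∃ p, Foot (hull (y i)) z p := fun i =>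
    (hFO X (hull (y i)) (hcl i) (hne i) z).1
  choose p hp using hfoot
  have hpd : ∀ i, dist z (p i) = Metric.infDist z (hull (y i)) := fun i =>
    (hFO X (hull (y i)) (hcl i) (hne i) z).2.1 (p i) (hp i)
  have hsub : ∀ i j, i ≤ j → j ≤ N → hull (y i) ⊆ hull (y j) := by
    intro i j hij
    induction j, hij using Nat.le_induction with
    | base => intro _; exact subset_rfl
    | succ j _ ih =>
      intro hj
      exact (ih (by omega)).trans (hcon j (by omega)).1
  apply hN z (fun i => p i)
  · intro i heq
    have := h1 i i.2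
    rw [← hpd i, heq, dist_self] at this
    exact lt_irrefl _ this
  · intro i j hij
    simp only [hpd]
    have a1 := h2 j j.2 i hij
    have a2 := h1 j j.2
    nlinarith
  · intro i j hij
    have a1 := h2 j j.2 i hij
    have a2 := h1 j j.2
    have a3 := h1 i i.2
    have a4 : Metric.infDist z (hull (y i)) ≤ D := by
      rw [← hpd]
      exact hX.diam _ _
    have a5 := hEX X hX.geo hX.cb (hull (y j)) (hE j) z (p j) (hp j) (p i)
    rw [dist_comm (p j) (p i)] at a5
    rw [← hpd] at a1 a2 a3 a4
    rw [← hpd i] at a1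
    exact cc_bound a3 a2 a4 a1 a5

end Pool.Agent.H19.AL
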