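import Pool.Agent.H96.AL.Targets4

set_option autoImplicit false

open Topology Set Filter Real

namespace Pool.Agent.H19.AL

open Pool.Agent.H96.AL

/-- Local infinity of a map on a subset of a compact space. -/
theorem local_infinite {X Y : Type} [MetricSpace X] [CompactSpace X] (h : X → Y) (S : Set X)
    (hS : (h '' S).Infinite) :
    ∃ y ∈ closure S, ∀ ρ : ℝ, 0 < ρ → (h '' (S ∩ Metric.ball y ρ)).Infinite := by
  by_contra hcon
  push Not at hcon
  have hc : IsCompact (closure S) := isClosed_closure.isCompact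
  choose! ρ hρ hfin using hcon
  obtain ⟨t, ht, hcov⟩ := hc.elim_nhds_subcover (fun y => Metric.ball y (ρ y))
    (fun y hy => Metric.ball_mem_nhds y (hρ y hy))
  apply hS
  have h1 : h '' S ⊆ ⋃ y ∈ t, h '' (S ∩ Metric.ball y (ρ y)) := by
    rintro _ ⟨s, hs, rfl⟩
    obtain ⟨y, hy, hsy⟩ := mem_iUnion₂.mp (hcov (subset_closure hs))
    exact mem_iUnion₂.mpr ⟨y, hy, s, ⟨hs, hsy⟩, rfl⟩
  refine Set.Finite.subset ?_ h1
  exact Set.Finite.biUnion t.finite_toSet fun y hy => by
    have := hfin y (ht y hy)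
    simpa using this

theorem fn (hAC : T_AC) (hNB : T_NB) (hDH : T_DH) (hPO : T_PO) (hFL : T_FL) (hIN : T_IN)
    (hUN : T_UN) (hHD : T_HD) (hGD : T_GD) (hGA : T_GA) (hSA : T_SA) (hFO : T_FO) : T_FN := by
  intro X _ D hX hdim
  have := hX.compact
  obtain ⟨_, _, _, hull'⟩ := hUN X D hX
  have hD1 := hX.one_le
  by_contra hinf
  have hinf' : ((fun x : X => hull x) '' univ).Infinite := by
    rw [image_univ]; exact hinf
  let Acc : Set X := {x | ∀ ρ : ℝ, 0 < ρ → ((fun x : X => hull x) '' Metric.ball x ρ).Infinite}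
  obtain ⟨x0, _, hx0⟩ := local_infinite (fun x : X => hull x) univ hinf'
  have hx0A : x0 ∈ Acc := by
    intro ρ hρ
    have := hx0 ρ hρ
    rwa [univ_inter] at this
  -- a maximal accumulation point
  have hmax : ∃ x ∈ Acc, ∀ x' ∈ Acc, ¬ hull x ⊂ hull x' := by
    by_contra hc
    push Not at hc
    choose! g hg1 hg2 using hc
    obtain ⟨N, hN⟩ := hAC X D hX hdim
    obtain ⟨i, _, hi⟩ := hN (fun n => g^[n] x0)
    have hmem : ∀ n, g^[n] x0 ∈ Acc := by
      intro n
      induction n with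
      | zero => exact hx0A
      | succ n ih =>
        rw [Function.iterate_succ_apply']
        exact hg1 _ ih
    apply hi
    simp only [Function.iterate_succ_apply']
    exact hg2 _ (hmem i)
  obtain ⟨x, hxA, hxmax⟩ := hmax
  obtain ⟨ρ0, hρ0, hNBx⟩ := hNB X D hX hdim x
  obtain ⟨K, δ1, hK, hδ1, hPO'⟩ := hPO X D hX hdim
  -- the choice of `δ`
  obtain ⟨δ, hδ0, hδ2, hδ3⟩ : ∃ δ : ℝ, 0 < δ ∧ δ < δ1 ∧ K * δ < ρ0 / 8 := by
    refine ⟨min (δ1 / 2) (ρ0 / (16 * K)), ?_, ?_, ?_⟩
    · exact lt_min (by positivity) (by positivity)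
    · exact lt_of_le_of_lt (min_le_left _ _) (by linarith)
    · have h1 : K * min (δ1 / 2) (ρ0 / (16 * K)) ≤ K * (ρ0 / (16 * K)) :=
        mul_le_mul_of_nonneg_left (min_le_right _ _) hK.le
      have h2 : K * (ρ0 / (16 * K)) = ρ0 / 16 := by field_simp
      linarith
  obtain ⟨hEx, hxE, _, hEsub⟩ := hull' x
  have hEcl : IsClosed (hull x) := hEx.1
  have hEne : (hull x).Nonempty := ⟨x, hxE⟩
  -- the truncated function
  have hcosh : 0 ≤ cosh D := (Real.cosh_pos D).le
  have hδsq : 0 ≤ δ ^ 2 / 2 := by positivity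
  have hD0 : (0 : ℝ) ≤ D := by linarith
  obtain ⟨hSC, hLip, _⟩ := hHD X D hX (hull x) hEcl hEne
  have hf1 := hSA X (hd (hull x)) (fun _ => δ ^ 2 / 2) D D (cosh D) (cosh D) 0 (δ ^ 2 / 2)
    hD0 hD0 hcosh hcosh le_rfl
  have hLc : Lip D (fun _ : X => δ ^ 2 / 2) := by
    intro a b
    simp only [sub_self, abs_zero]
    positivity
  have hSCc : SC (cosh D) (fun _ : X => δ ^ 2 / 2) := by
    intro a b m t ht _ _
    have h1 : 0 ≤ cosh D / 2 * t * (1 - t) * dist a b ^ 2 := by
      have := ht.1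
      have h2 : 0 ≤ 1 - t := by linarith [ht.2]
      positivity
    simp only
    linarith
  have hfL : Lip D (fun z => min (hd (hull x) z) (δ ^ 2 / 2)) := by
    have := (hf1.1 hLip hLc).2.1
    rwa [max_self] at this
  have hfS : SC (cosh D) (fun z => min (hd (hull x) z) (δ ^ 2 / 2)) := by
    have := (hf1.2 hSC hSCc).2.1
    rwa [max_self] at this
  have hG1 := (hGD X D hX).2 (hull x) hEcl hEne
  have hcs : 0 ≤ cosh D ^ 2 := by positivity
  have hG2 : Good (cosh D ^ 2) (fun _ : X => δ ^ 2 / 2) := by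
    intro E _ z p _
    have : 0 ≤ cosh D ^ 2 * dist z p ^ 2 := by positivity
    simp only
    linarith
  have hfG : Good (cosh D ^ 2) (fun z => min (hd (hull x) z) (δ ^ 2 / 2)) := by
    have := (hGA X (hd (hull x)) (fun _ => δ ^ 2 / 2) (cosh D ^ 2) (cosh D ^ 2) 0 hcs hcs le_rfl
      hG1 hG2).2.1
    rwa [max_self] at this
  -- the closed set
  let S : Set X := {y | dist x y ≤ ρ0 / 2 ∧ δ / 2 ≤ Metric.infDist y (hull x)}
  have hScl : IsClosed S :=
    (isClosed_le (continuous_const.dist continuous_id) continuous_const).inter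
      (isClosed_le continuous_const (Metric.continuous_infDist_pt _))
  have hcover : (fun x : X => hull x) '' Metric.ball x (ρ0 / 8) ⊆
      ((fun x : X => hull x) '' S) ∪ {hull x} := by
    rintro _ ⟨w, hw, rfl⟩
    by_cases hwx : hull w = hull x
    · right; exact hwx
    left
    have hwd : dist x w < ρ0 / 8 := by
      rw [dist_comm]; exact hw
    have hxw : x ∈ hull w := hNBx w (by linarith)
    have hsub : hull x ⊆ hull w := (hull' w).2.2.2 x hxw
    have hwE : w ∉ hull x := by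
      intro h
      exact hwx (Subset.antisymm (hEsub w h) hsub)
    have hwpos : 0 < Metric.infDist w (hull x) := (hEcl.notMem_iff_infDist_pos hEne).mp hwE
    obtain ⟨β, hβ0, hβ⟩ := hFL X D hX (fun z => min (hd (hull x) z) (δ ^ 2 / 2)) D (cosh D) hD0
      hcosh hfL hfS w
    have hw0 : 0 < Metric.infDist (β 0) (hull x) := by rw [hβ0]; exact hwpos
    set t : ℝ := K * (1 + max 0 (log (δ / Metric.infDist (β 0) (hull x)))) with ht
    have ht0 : 0 ≤ t := by
      have : 0 ≤ max 0 (log (δ / Metric.infDist (β 0) (hull x))) := le_max_left _ _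
      positivity
    obtain ⟨hp1, hp2⟩ := hPO' (hull x) hEx hEne δ D hδ0 hδ2 β hβ hw0 t ht0
    have hp3 := hp2 le_rfl
    have hβw : β t ∈ hull w :=
      hIN X D hX (fun z => min (hd (hull x) z) (δ ^ 2 / 2)) D (cosh D) (cosh D ^ 2) D hD0 hcosh
        hcs hfL hfS hfG β hβ (hull w) (hull' w).1 (by rw [hβ0]; exact (hull' w).2.1) t ht0
    obtain ⟨y', hy'1, hy'2⟩ := hDH X D hX hdim w (β t) hβw (min (δ / 2) (ρ0 / 8))
      (lt_min (by positivity) (by positivity))
    refine ⟨y', ⟨?_, ?_⟩, hy'2⟩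
    · have e1 : dist (β t) y' < ρ0 / 8 := lt_of_lt_of_le hy'1 (min_le_right _ _)
      have e2 : dist w (β t) ≤ K * δ := by rw [← hβ0]; exact hp1
      have e3 : dist x y' ≤ dist x w + dist w (β t) + dist (β t) y' := dist_triangle4 _ _ _ _
      linarith
    · have e1 : dist (β t) y' < δ / 2 := lt_of_lt_of_le hy'1 (min_le_left _ _)
      have e2 : Metric.infDist (β t) (hull x) ≤ Metric.infDist y' (hull x) + dist (β t) y' :=
        Metric.infDist_le_infDist_add_dist
      linarith
  have hSinf : ((fun x : X => hull x) '' S).Infinite := by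
    intro hfin
    exact (hxA (ρ0 / 8) (by positivity)) (Set.Finite.subset (hfin.union (finite_singleton _)) hcover)
  obtain ⟨y, hyS, hy⟩ := local_infinite (fun x : X => hull x) S hSinf
  rw [hScl.closure_eq] at hyS
  have hyA : y ∈ Acc := by
    intro ρ hρ
    exact (hy ρ hρ).mono (image_mono inter_subset_right)
  apply hxmax y hyA
  have hxy : x ∈ hull y := hNBx y (lt_of_le_of_lt hyS.1 (by linarith))
  refine ⟨(hull' y).2.2.2 x hxy, ?_⟩
  intro hle
  have h1 : y ∈ hull x := hle (hull' y).2.1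
  have h2 : Metric.infDist y (hull x) = 0 := Metric.infDist_zero_of_mem h1
  have h3 := hyS.2
  rw [h2] at h3
  linarith

end Pool.Agent.H19.AL
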