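import Pool.Agent.H96.AL.Targets4

set_option autoImplicit false

open Topology Set Filter Real

namespace Pool.Agent.H19.AL

open Pool.Agent.H96.AL

/-- A copy of a type. -/
structure Rs (X : Type) where
  val : X

/-- The rescaled metric. -/
@[reducible] noncomputable def rsMetric (X : Type) [MetricSpace X] (k : ℝ) (hk : 0 < k) :
    MetricSpace (Rs X) where
  dist a b := k * dist a.val b.val
  dist_self a := by simp
  dist_comm a b := by rw [dist_comm]
  dist_triangle a b c := by
    rw [← mul_add]
    exact mul_le_mul_of_nonneg_left (dist_triangle _ _ _) hk.le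
  eq_of_dist_eq_zero := by
    intro a b h
    have h1 : k * dist a.val b.val = 0 := h
    have h2 : dist a.val b.val = 0 := by
      rcases mul_eq_zero.mp h1 with h | h
      · exact absurd h hk.ne'
      · exact h
    cases a
    cases b
    congr 1
    exact dist_eq_zero.mp h2

theorem rs : T_RS := by
  intro X _ k hk
  refine ⟨Rs X, rsMetric X k hk, ⟨fun x => ⟨x⟩, fun y => y.val, fun _ => rfl, fun _ => rfl⟩, ?_⟩
  intro x x'
  rfl

end Pool.Agent.H19.AL
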